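import Pool.Agent.Helper82_NIB.Stmts

/-! # NIB: module NSTEP, the numerical inequalities for one bite -/

set_option autoImplicit false

namespace Pool.Agent.NIB.H66

open Finset Matrix

section

variable {n s de r Ph B1 b2 B4 B5 B6 ph ob b1 D : ℝ}

theorem npos (hn : 1000 ≤ n) (k : ℕ) : 0 < n ^ k := pow_pos (by linarith) k

theorem nmon (hn : 1000 ≤ n) {a b : ℕ} (h : a ≤ b) : n ^ a ≤ n ^ b :=
  pow_le_pow_right₀ (by linarith) h

theorem n2 (hn : 1000 ≤ n) : (1000000 : ℝ) ≤ n ^ 2 := by nlinarith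

theorem nbig (hn : 1000 ≤ n) (k : ℕ) (hk : 2 ≤ k) : (1000000 : ℝ) ≤ n ^ k :=
  (n2 hn).trans (nmon hn hk)

theorem small (hn : 1000 ≤ n) (a : ℕ) (c : ℝ) (hc : c ≤ 1000000) (ha : a ≤ 169) :
    c * n ^ a ≤ n ^ 171 := by
  calc c * n ^ a ≤ n ^ 2 * n ^ a :=
        mul_le_mul_of_nonneg_right (hc.trans (n2 hn)) (npos hn a).le
    _ = n ^ (2 + a) := (pow_add n 2 a).symm
    _ ≤ n ^ 171 := nmon hn (by omega)

theorem sdiv (hn : 1000 ≤ n) (hs4 : s ≤ 14143 / 10000 * n ^ 240) (a b : ℕ) (h : a + b = 240) :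
    s / n ^ a ≤ 14143 / 10000 * n ^ b := by
  rw [div_le_iff₀ (npos hn a), mul_assoc, ← pow_add, add_comm b a, h]
  exact hs4

theorem rs_le (hn : 1000 ≤ n) (hs : 0 < s) (hs1 : n ^ 117 ≤ s) (hr0 : 0 ≤ r)
    (A2 : r * (s * s) ≤ 200 * n ^ 232) : r * s ≤ 200 * n ^ 115 := by
  have h1 : r * s * n ^ 117 ≤ 200 * n ^ 115 * n ^ 117 := by
    calc r * s * n ^ 117 ≤ r * s * s := mul_le_mul_of_nonneg_left hs1 (mul_nonneg hr0 hs.le)
      _ = r * (s * s) := by ring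
      _ ≤ 200 * n ^ 232 := A2
      _ = 200 * n ^ 115 * n ^ 117 := by rw [mul_assoc, ← pow_add]
  exact le_of_mul_le_mul_right h1 (npos hn 117)

theorem des_le (hs : 1 ≤ s) (hde : 0 ≤ de) (A1 : de * (s * s) ≤ 2) : de * s ≤ 2 := by
  have h1 : de * s * 1 ≤ de * s * s := mul_le_mul_of_nonneg_left hs (mul_nonneg hde (by linarith))
  have h2 : de * s * s = de * (s * s) := by ring
  linarith

theorem Ph232 (hn : 1000 ≤ n) (hs1 : n ^ 117 ≤ s) (hPh : 0 ≤ Ph) (A3 : Ph * s ≤ 15 * n ^ 11) :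
    n ^ 232 * Ph ≤ 15 * n ^ 126 := by
  have h : Ph * n ^ 117 ≤ 15 * n ^ 11 := (mul_le_mul_of_nonneg_left hs1 hPh).trans A3
  calc n ^ 232 * Ph = (Ph * n ^ 117) * n ^ 115 := by rw [mul_assoc, ← pow_add, mul_comm]
    _ ≤ (15 * n ^ 11) * n ^ 115 := mul_le_mul_of_nonneg_right h (npos hn 115).le
    _ = 15 * n ^ 126 := by rw [mul_assoc, ← pow_add]

theorem e20 (hn : 1000 ≤ n) : n ^ 80 * (1 / n ^ 60) = n ^ 20 := by
  rw [mul_one_div, div_eq_iff (npos hn 60).ne', ← pow_add]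

theorem phs_le (hn : 1000 ≤ n) (A3 : Ph * s ≤ 15 * n ^ 11)
    (e : ph = Ph * (101 / 100 + 3 * n ^ 20)) : ph * s ≤ 46 * n ^ 31 := by
  have h1 : ph * s = (Ph * s) * (101 / 100 + 3 * n ^ 20) := by rw [e]; ring
  have h3 := nbig hn 20 (by norm_num)
  have h2 : 101 / 100 + 3 * n ^ 20 ≤ 46 / 15 * n ^ 20 := by linarith
  have h4 : 0 ≤ 101 / 100 + 3 * n ^ 20 := by linarith
  calc ph * s = (Ph * s) * (101 / 100 + 3 * n ^ 20) := h1
    _ ≤ (15 * n ^ 11) * (46 / 15 * n ^ 20) :=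
        mul_le_mul A3 h2 h4 (mul_nonneg (by norm_num) (npos hn 11).le)
    _ = 46 * (n ^ 11 * n ^ 20) := by ring
    _ = 46 * n ^ 31 := by rw [← pow_add]

theorem ph80 (hn : 1000 ≤ n) (hs1 : n ^ 117 ≤ s) (hph : 0 ≤ ph) (h : ph * s ≤ 46 * n ^ 31) :
    ph * n ^ 80 ≤ 1 / 10 := by
  have h1 : ph * n ^ 86 * n ^ 31 ≤ 46 * n ^ 31 := by
    calc ph * n ^ 86 * n ^ 31 = ph * n ^ 117 := by rw [mul_assoc, ← pow_add]
      _ ≤ ph * s := mul_le_mul_of_nonneg_left hs1 hph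
      _ ≤ 46 * n ^ 31 := h
  have h2 : ph * n ^ 86 ≤ 46 := le_of_mul_le_mul_right h1 (npos hn 31)
  have h3 : ph * n ^ 86 = ph * n ^ 80 * n ^ 6 := by rw [mul_assoc, ← pow_add]
  have h4 : ph * n ^ 80 * 1000000 ≤ ph * n ^ 80 * n ^ 6 :=
    mul_le_mul_of_nonneg_left (nbig hn 6 (by norm_num)) (mul_nonneg hph (npos hn 80).le)
  linarith

theorem ph1 (hn : 1000 ≤ n) (hph : 0 ≤ ph) (h : ph * n ^ 80 ≤ 1 / 10) : ph ≤ 1 / 8 := by
  have h1 : ph * 1 ≤ ph * n ^ 80 :=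
    mul_le_mul_of_nonneg_left (one_le_pow₀ (by linarith)) hph
  linarith

theorem ob220 (hn : 1000 ≤ n) (e : ob = 9 * (1 / n ^ 60) * (4 / n ^ 160)) :
    ob = 36 / n ^ 220 := by
  have h1 : n ^ 220 = n ^ 60 * n ^ 160 := by rw [← pow_add]
  rw [e, h1]
  have h2 := (npos hn 60).ne'
  have h3 := (npos hn 160).ne'
  field_simp
  norm_num

theorem ob80 (hn : 1000 ≤ n) (e : ob = 36 / n ^ 220) : ob * n ^ 80 ≤ 1 / 10 := by
  have h1 : ob * n ^ 80 = 36 / n ^ 140 := by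
    rw [e, div_mul_eq_mul_div, div_eq_div_iff (npos hn 220).ne' (npos hn 140).ne', mul_assoc,
      ← pow_add]
  rw [h1, div_le_iff₀ (npos hn 140)]
  have := nbig hn 140 (by norm_num)
  linarith

theorem psi (hn : 1000 ≤ n) (hob : 0 ≤ ob) (h1 : ph ≤ 1 / 8)
    (h2 : ph * n ^ 80 ≤ 1 / 10) (h3 : ob * n ^ 80 ≤ 1 / 10) :
    (1 + 2 * ph) * (1 + 2 * ob) - 1 ≤ 1 / n ^ 80 := by
  rw [le_div_iff₀ (npos hn 80)]
  have h4 : ((1 + 2 * ph) * (1 + 2 * ob) - 1) * n ^ 80 =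
      2 * (ph * n ^ 80) + 2 * (ob * n ^ 80) + 4 * ph * (ob * n ^ 80) := by ring
  rw [h4]
  have h5 : 4 * ph * (ob * n ^ 80) ≤ 4 * (1 / 8) * (1 / 10) :=
    mul_le_mul (by linarith) h3 (mul_nonneg hob (npos hn 80).le) (by norm_num)
  linarith

theorem th1 (hn : 1000 ≤ n) : 1 / n ^ 60 ≤ 1 / 1000 := by
  rw [div_le_div_iff₀ (npos hn 60) (by norm_num)]
  have := nbig hn 60 (by norm_num)
  linarith

theorem th2 (hn : 1000 ≤ n) : (1 / n ^ 60) / (1 - 1 / n ^ 60) ≤ 101 / 100 * (1 / n ^ 60) := by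
  have h1 := th1 hn
  have h0 : 0 < 1 / n ^ 60 := one_div_pos.2 (npos hn 60)
  generalize 1 / n ^ 60 = t at *
  rw [div_le_iff₀ (by linarith)]
  nlinarith

theorem rsmall (hn : 1000 ≤ n) (hD0 : n ^ 234 ≤ s * s) (hr0 : 0 ≤ r)
    (A2 : r * (s * s) ≤ 200 * n ^ 232) : r ≤ 1 / 1000 := by
  have h1 : r * n ^ 2 * n ^ 232 ≤ 200 * n ^ 232 := by
    calc r * n ^ 2 * n ^ 232 = r * n ^ 234 := by rw [mul_assoc, ← pow_add]
      _ ≤ r * (s * s) := mul_le_mul_of_nonneg_left hD0 hr0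
      _ ≤ 200 * n ^ 232 := A2
  have h3 : r * n ^ 2 ≤ 200 := le_of_mul_le_mul_right h1 (npos hn 232)
  have h4 : r * 1000000 ≤ r * n ^ 2 := mul_le_mul_of_nonneg_left (n2 hn) hr0
  linarith

theorem desmall (hn : 1000 ≤ n) (hD0 : n ^ 234 ≤ s * s) (hde : 0 ≤ de)
    (A1 : de * (s * s) ≤ 2) : de ≤ 1 / 1000 := by
  have h2 : (1000000 : ℝ) ≤ s * s := (nbig hn 234 (by norm_num)).trans hD0
  have h1 : de * 1000000 ≤ de * (s * s) := mul_le_mul_of_nonneg_left h2 hde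
  linarith

theorem B4small (hn : 1000 ≤ n) (hs1 : n ^ 117 ≤ s) (hB4 : 0 ≤ B4) (A4 : B4 * s ≤ 15 / n ^ 29) :
    B4 ≤ 1 / n ^ 60 * (1 / 100) := by
  have h1 : B4 * n ^ 117 ≤ 15 / n ^ 29 := le_trans (mul_le_mul_of_nonneg_left hs1 hB4) A4
  rw [le_div_iff₀ (npos hn 29)] at h1
  have h2 : B4 * n ^ 117 * n ^ 29 = B4 * n ^ 60 * n ^ 86 := by
    rw [mul_assoc, mul_assoc, ← pow_add, ← pow_add]
  rw [h2] at h1
  have h5 : B4 * n ^ 60 * 1000000 ≤ B4 * n ^ 60 * n ^ 86 :=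
    mul_le_mul_of_nonneg_left (nbig hn 86 (by norm_num)) (mul_nonneg hB4 (npos hn 60).le)
  have h6 : B4 * n ^ 60 ≤ 1 / 100 := by linarith
  rw [one_div_mul_eq_div, le_div_iff₀ (npos hn 60)]
  exact h6

theorem b1_le (hn : 1000 ≤ n) (hr0 : 0 ≤ r) (hde : 0 ≤ de)
    (e : b1 = (1 / n ^ 60) / (1 - 1 / n ^ 60) * (2 * r + de) + 101 / 100 * B4) :
    b1 ≤ 101 / 100 * (1 / n ^ 60) * (2 * r + de) + 101 / 100 * B4 := by
  rw [e]
  have : (1 / n ^ 60) / (1 - 1 / n ^ 60) * (2 * r + de) ≤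
      101 / 100 * (1 / n ^ 60) * (2 * r + de) :=
    mul_le_mul_of_nonneg_right (th2 hn) (by linarith)
  linarith

theorem b1th (hn : 1000 ≤ n) (hr : r ≤ 1 / 1000) (hde : de ≤ 1 / 1000)
    (hB4 : B4 ≤ 1 / n ^ 60 * (1 / 100))
    (h : b1 ≤ 101 / 100 * (1 / n ^ 60) * (2 * r + de) + 101 / 100 * B4) : b1 ≤ 1 / n ^ 60 := by
  have h0 : 0 < 1 / n ^ 60 := one_div_pos.2 (npos hn 60)
  generalize 1 / n ^ 60 = t at *
  have h2 : 101 / 100 * t * (2 * r + de) ≤ 101 / 100 * t * (1 / 100) :=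
    mul_le_mul_of_nonneg_left (by linarith) (by linarith)
  linarith

theorem B4th (hn : 1000 ≤ n) (hB4 : B4 ≤ 1 / n ^ 60 * (1 / 100)) : B4 ≤ 1 / n ^ 60 / 2 := by
  have h0 : 0 < 1 / n ^ 60 := one_div_pos.2 (npos hn 60)
  generalize 1 / n ^ 60 = t at *
  linarith

theorem b1s (hn : 1000 ≤ n) (hs : 0 < s) (hrs : r * s ≤ 200 * n ^ 115) (hdes : de * s ≤ 2)
    (hr0 : 0 ≤ r) (hde : 0 ≤ de) (A4 : B4 * s ≤ 15 / n ^ 29)
    (h : b1 ≤ 101 / 100 * (1 / n ^ 60) * (2 * r + de) + 101 / 100 * B4) :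
    b1 * s ≤ 406 * n ^ 115 := by
  have h1 : b1 * s ≤ (101 / 100 * (1 / n ^ 60) * (2 * r + de) + 101 / 100 * B4) * s :=
    mul_le_mul_of_nonneg_right h hs.le
  have h2 : (101 / 100 * (1 / n ^ 60) * (2 * r + de) + 101 / 100 * B4) * s =
      101 / 100 * (1 / n ^ 60) * (2 * (r * s) + de * s) + 101 / 100 * (B4 * s) := by ring
  have h3 : B4 * s ≤ 15 := by
    refine A4.trans ?_
    rw [div_le_iff₀ (npos hn 29)]
    have := nbig hn 29 (by norm_num)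
    linarith
  have ht := th1 hn
  have h5 := nbig hn 115 (by norm_num)
  have h6 : 0 ≤ 2 * (r * s) + de * s := by
    have := mul_nonneg hr0 hs.le
    have := mul_nonneg hde hs.le
    linarith
  have h4 : 101 / 100 * (1 / n ^ 60) * (2 * (r * s) + de * s) ≤ 1 * (2 * (200 * n ^ 115) + 2) :=
    mul_le_mul (by linarith) (by linarith) h6 (by norm_num)
  rw [h2] at h1
  linarith

theorem k4b (hn : 1000 ≤ n) (hs : 0 < s) (hs1 : n ^ 117 ≤ s) (hde : 0 ≤ de)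
    (A1 : de * (s * s) ≤ 2) :
    9 * √(n ^ 2 * (1 / n ^ 60) * de) + 8 * n ^ 2 * √de ≤ 1 / n ^ 60 := by
  have hde2 : √de ≤ 3 / 2 / s := by
    apply Real.sqrt_le_iff.2
    refine ⟨div_nonneg (by norm_num) hs.le, ?_⟩
    rw [div_pow, le_div_iff₀ (pow_pos hs 2)]
    nlinarith
  have h2 : √(n ^ 2 * (1 / n ^ 60) * de) ≤ √de := by
    apply Real.sqrt_le_sqrt
    have h3 : n ^ 2 * (1 / n ^ 60) ≤ 1 := by
      rw [mul_one_div, div_le_one (npos hn 60)]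
      exact nmon hn (by norm_num)
    calc n ^ 2 * (1 / n ^ 60) * de ≤ 1 * de := mul_le_mul_of_nonneg_right h3 hde
      _ = de := one_mul _
  have h4 : 3 / 2 / s ≤ 3 / 2 / n ^ 117 :=
    div_le_div_of_nonneg_left (by norm_num) (npos hn 117) hs1
  have h5 : √de ≤ 3 / 2 / n ^ 117 := hde2.trans h4
  have hn2 := npos hn 2
  have h9 : (9 + 8 * n ^ 2) * (3 / 2) ≤ n ^ 57 := by
    have h8 : n ^ 3 ≤ n ^ 57 := nmon hn (by norm_num)
    have h9 : n ^ 3 = n * n ^ 2 := by ring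
    have h10 : 1000 * n ^ 2 ≤ n * n ^ 2 := mul_le_mul_of_nonneg_right hn hn2.le
    have h11 := n2 hn
    linarith
  have h6 : (9 + 8 * n ^ 2) * (3 / 2 / n ^ 117) ≤ 1 / n ^ 60 := by
    rw [← mul_div_assoc, div_le_div_iff₀ (npos hn 117) (npos hn 60)]
    have h7 : 1 * n ^ 117 = n ^ 57 * n ^ 60 := by rw [one_mul, ← pow_add]
    rw [h7]
    exact mul_le_mul_of_nonneg_right h9 (npos hn 60).le
  have h12 : (9 + 8 * n ^ 2) * √de ≤ (9 + 8 * n ^ 2) * (3 / 2 / n ^ 117) :=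
    mul_le_mul_of_nonneg_left h5 (by linarith)
  have h13 : (9 + 8 * n ^ 2) * √de = 9 * √de + 8 * n ^ 2 * √de := by ring
  generalize √(n ^ 2 * (1 / n ^ 60) * de) = X at *
  generalize 8 * n ^ 2 * √de = Y at *
  linarith

theorem T1 (hn : 1000 ≤ n) (hs : 0 < s) (hs4 : s ≤ 14143 / 10000 * n ^ 240)
    (A1 : de * (s * s) ≤ 2) (hB1 : B1 ≤ 20 / n ^ 69 / s + 33 * n ^ 82 * de) :
    s * s * (101 / 100 * B1) ≤ 29 * n ^ 171 := by
  have h1 : s * s * B1 ≤ s * s * (20 / n ^ 69 / s + 33 * n ^ 82 * de) :=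
    mul_le_mul_of_nonneg_left hB1 (mul_pos hs hs).le
  have h2 : s * s * (20 / n ^ 69 / s + 33 * n ^ 82 * de) =
      20 * (s / n ^ 69) + 33 * n ^ 82 * (de * (s * s)) := by
    have := (npos hn 69).ne'
    have := hs.ne'
    field_simp
  rw [h2] at h1
  have h5 := sdiv hn hs4 69 171 (by norm_num)
  have h3 : 33 * n ^ 82 * (de * (s * s)) ≤ 33 * n ^ 82 * 2 :=
    mul_le_mul_of_nonneg_left A1 (mul_nonneg (by norm_num) (npos hn 82).le)
  have h4 : 66000 * n ^ 82 ≤ n ^ 171 := small hn 82 66000 (by norm_num) (by norm_num)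
  have h6 := npos hn 171
  generalize s / n ^ 69 = X at *
  linarith

theorem T2 (hn : 1000 ≤ n) (hPh : 0 ≤ Ph) (A2 : r * (s * s) ≤ 200 * n ^ 232)
    (h232 : n ^ 232 * Ph ≤ 15 * n ^ 126) : s * s * (202 / 100 * r * Ph) ≤ n ^ 171 := by
  have h1 : s * s * (202 / 100 * r * Ph) = 202 / 100 * (r * (s * s)) * Ph := by ring
  have h2 : 202 / 100 * (r * (s * s)) * Ph ≤ 202 / 100 * (200 * n ^ 232) * Ph :=
    mul_le_mul_of_nonneg_right (by linarith) hPh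
  have h3 : 202 / 100 * (200 * n ^ 232) * Ph = 404 * (n ^ 232 * Ph) := by ring
  have h4 := small hn 126 6060 (by norm_num) (by norm_num)
  linarith

theorem T3 (hn : 1000 ≤ n) (hs : 0 < s) (hs4 : s ≤ 14143 / 10000 * n ^ 240)
    (A1 : de * (s * s) ≤ 2) (hb2 : b2 ≤ 90 / n ^ 69 / s + 72 * n ^ 22 * de) :
    s * s * b2 ≤ 128 * n ^ 171 := by
  have h1 : s * s * b2 ≤ s * s * (90 / n ^ 69 / s + 72 * n ^ 22 * de) :=
    mul_le_mul_of_nonneg_left hb2 (mul_pos hs hs).le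
  have h2 : s * s * (90 / n ^ 69 / s + 72 * n ^ 22 * de) =
      90 * (s / n ^ 69) + 72 * n ^ 22 * (de * (s * s)) := by
    have := (npos hn 69).ne'
    have := hs.ne'
    field_simp
  rw [h2] at h1
  have h5 := sdiv hn hs4 69 171 (by norm_num)
  have h3 : 72 * n ^ 22 * (de * (s * s)) ≤ 72 * n ^ 22 * 2 :=
    mul_le_mul_of_nonneg_left A1 (mul_nonneg (by norm_num) (npos hn 22).le)
  have h4 : 144000 * n ^ 22 ≤ n ^ 171 := small hn 22 144000 (by norm_num) (by norm_num)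
  have h6 := npos hn 171
  generalize s / n ^ 69 = X at *
  linarith

theorem T4 (hn : 1000 ≤ n) (hs : 0 < s) (hPh : 0 ≤ Ph) (A2 : r * (s * s) ≤ 200 * n ^ 232)
    (A3 : Ph * s ≤ 15 * n ^ 11) (h232 : n ^ 232 * Ph ≤ 15 * n ^ 126)
    (hb : b1 * s ≤ 406 * n ^ 115) :
    s * s * ((2 * r + 2 * b1) * (3 * n ^ 80 * (1 / n ^ 60) * Ph)) ≤ n ^ 171 := by
  have h1 : s * s * ((2 * r + 2 * b1) * (3 * n ^ 80 * (1 / n ^ 60) * Ph)) =
      6 * n ^ 20 * ((r * (s * s)) * Ph) + 6 * n ^ 20 * ((b1 * s) * (Ph * s)) := by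
    have h : 3 * n ^ 80 * (1 / n ^ 60) * Ph = 3 * n ^ 20 * Ph := by
      rw [mul_assoc 3, e20 hn]
    rw [h]; ring
  have h2 : (r * (s * s)) * Ph ≤ 3000 * n ^ 126 := by
    calc (r * (s * s)) * Ph ≤ (200 * n ^ 232) * Ph := mul_le_mul_of_nonneg_right A2 hPh
      _ = 200 * (n ^ 232 * Ph) := by ring
      _ ≤ 3000 * n ^ 126 := by linarith
  have h3 : (b1 * s) * (Ph * s) ≤ (406 * n ^ 115) * (15 * n ^ 11) :=
    mul_le_mul hb A3 (mul_nonneg hPh hs.le) (mul_nonneg (by norm_num) (npos hn 115).le)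
  have h4 : (406 * n ^ 115) * (15 * n ^ 11) = 6090 * n ^ 126 := by
    have : n ^ 126 = n ^ 115 * n ^ 11 := by rw [← pow_add]
    rw [this]; ring
  rw [h1]
  have h20 : 0 ≤ 6 * n ^ 20 := mul_nonneg (by norm_num) (npos hn 20).le
  have h5 : 6 * n ^ 20 * ((r * (s * s)) * Ph) ≤ 6 * n ^ 20 * (3000 * n ^ 126) :=
    mul_le_mul_of_nonneg_left h2 h20
  have h6 : 6 * n ^ 20 * ((b1 * s) * (Ph * s)) ≤ 6 * n ^ 20 * (6090 * n ^ 126) :=
    mul_le_mul_of_nonneg_left (h3.trans h4.le) h20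
  have h7 : 6 * n ^ 20 * (3000 * n ^ 126) + 6 * n ^ 20 * (6090 * n ^ 126) = 54540 * n ^ 146 := by
    have : n ^ 146 = n ^ 20 * n ^ 126 := by rw [← pow_add]
    rw [this]; ring
  have h8 := small hn 146 54540 (by norm_num) (by norm_num)
  exact (add_le_add h5 h6).trans (h7.le.trans h8)

theorem T5 (hn : 1000 ≤ n) (hs : 0 < s) (hs4 : s ≤ 14143 / 10000 * n ^ 240)
    (A1 : de * (s * s) ≤ 2) (hB5 : B5 ≤ 30 / n ^ 109 / s + 9 * n ^ 2 * de) :
    s * s * B5 ≤ n ^ 171 := by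
  have h1 : s * s * B5 ≤ s * s * (30 / n ^ 109 / s + 9 * n ^ 2 * de) :=
    mul_le_mul_of_nonneg_left hB5 (mul_pos hs hs).le
  have h2 : s * s * (30 / n ^ 109 / s + 9 * n ^ 2 * de) =
      30 * (s / n ^ 109) + 9 * n ^ 2 * (de * (s * s)) := by
    have := (npos hn 109).ne'
    have := hs.ne'
    field_simp
  rw [h2] at h1
  have h6 := sdiv hn hs4 109 131 (by norm_num)
  have h3 : 9 * n ^ 2 * (de * (s * s)) ≤ 9 * n ^ 2 * 2 :=
    mul_le_mul_of_nonneg_left A1 (mul_nonneg (by norm_num) (npos hn 2).le)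
  have h4 : n ^ 2 ≤ n ^ 131 := nmon hn (by norm_num)
  have h5 := small hn 131 100 (by norm_num) (by norm_num)
  have h7 := npos hn 131
  generalize s / n ^ 109 = X at *
  linarith

theorem T6 (hn : 1000 ≤ n) (hs : 0 < s) (hs4 : s ≤ 14143 / 10000 * n ^ 240)
    (hdes : de * s ≤ 2) (hph : 0 ≤ ph) (hphs : ph * s ≤ 46 * n ^ 31) (hob : ob = 36 / n ^ 220)
    (hB6 : B6 ≤ 33 / n ^ 220 + 18 / n ^ 109 / s + 4 * n ^ 2 * de) :
    s * s * (22 / 10 * ph * (B6 + 2 * ob)) ≤ n ^ 171 := by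
  have h1 : s * s * (22 / 10 * ph * (B6 + 2 * ob)) =
      22 / 10 * (ph * s) * ((B6 + 2 * ob) * s) := by ring
  have h2 : (B6 + 2 * ob) * s ≤ 150 * n ^ 20 := by
    have h3 : (B6 + 2 * ob) * s ≤
        (33 / n ^ 220 + 18 / n ^ 109 / s + 4 * n ^ 2 * de + 2 * (36 / n ^ 220)) * s := by
      refine mul_le_mul_of_nonneg_right ?_ hs.le
      rw [hob]
      linarith
    have h5 : (33 / n ^ 220 + 18 / n ^ 109 / s + 4 * n ^ 2 * de + 2 * (36 / n ^ 220)) * s =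
        105 * (s / n ^ 220) + 18 / n ^ 109 + 4 * n ^ 2 * (de * s) := by
      have e1 : 18 / n ^ 109 / s * s = 18 / n ^ 109 := div_mul_cancel₀ _ hs.ne'
      have e2 : (33 / n ^ 220 + 18 / n ^ 109 / s + 4 * n ^ 2 * de + 2 * (36 / n ^ 220)) * s =
          105 * (s / n ^ 220) + 18 / n ^ 109 / s * s + 4 * n ^ 2 * (de * s) := by ring
      rw [e2, e1]
    rw [h5] at h3
    have h6 : 4 * n ^ 2 * (de * s) ≤ 4 * n ^ 2 * 2 :=
      mul_le_mul_of_nonneg_left hdes (mul_nonneg (by norm_num) (npos hn 2).le)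
    have h7 : 18 / n ^ 109 ≤ 18 := by
      rw [div_le_iff₀ (npos hn 109)]
      have := nbig hn 109 (by norm_num)
      linarith
    have h8 : n ^ 3 ≤ n ^ 20 := nmon hn (by norm_num)
    have h9 : n ^ 3 = n * n ^ 2 := by ring
    have h10 : 1000 * n ^ 2 ≤ n ^ 3 := by
      rw [h9]; exact mul_le_mul_of_nonneg_right hn (npos hn 2).le
    have h11 := n2 hn
    have h12 := sdiv hn hs4 220 20 (by norm_num)
    generalize s / n ^ 220 = X at *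
    generalize 18 / n ^ 109 = Y at *
    generalize (B6 + 2 * ob) * s = Z at *
    linarith
  rw [h1]
  have h0 : 0 ≤ 22 / 10 * (ph * s) := mul_nonneg (by norm_num) (mul_nonneg hph hs.le)
  have h12 : 22 / 10 * (ph * s) * ((B6 + 2 * ob) * s) ≤
      22 / 10 * (ph * s) * (150 * n ^ 20) := mul_le_mul_of_nonneg_left h2 h0
  have h13 : 22 / 10 * (ph * s) * (150 * n ^ 20) ≤ 22 / 10 * (46 * n ^ 31) * (150 * n ^ 20) :=
    mul_le_mul_of_nonneg_right (by linarith) (mul_nonneg (by norm_num) (npos hn 20).le)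
  have h14 : 22 / 10 * (46 * n ^ 31) * (150 * n ^ 20) = 15180 * n ^ 51 := by
    have : n ^ 51 = n ^ 31 * n ^ 20 := by rw [← pow_add]
    rw [this]; ring
  have h15 := small hn 51 15180 (by norm_num) (by norm_num)
  exact h12.trans (h13.trans (h14.le.trans h15))

theorem T7 (hn : 1000 ≤ n) (hde : 0 ≤ de) (A1 : de * (s * s) ≤ 2) :
    s * s * (1 / n ^ 60 * de) ≤ n ^ 171 := by
  have h1 : s * s * (1 / n ^ 60 * de) = 1 / n ^ 60 * (de * (s * s)) := by ring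
  have ht := th1 hn
  have h2 : 1 / n ^ 60 * (de * (s * s)) ≤ 1 * 2 :=
    mul_le_mul (by linarith) A1 (mul_nonneg hde (mul_self_nonneg s)) (by norm_num)
  have h3 := nbig hn 171 (by norm_num)
  linarith

end

/-- MODULE NSTEP -/
theorem nstep (hphi : NphiStmt) : NstepStmt := by
  obtain ⟨N0, hN0⟩ := hphi
  refine ⟨max N0 1000, fun N hN D de r h hreg => ?_⟩
  obtain ⟨hB1, hPhi, hb2, hB4, hB5, hB6⟩ := hN0 N (le_trans (le_max_left _ _) hN) D de r h hreg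
  have hn : (1000 : ℝ) ≤ (N : ℝ) := by exact_mod_cast le_trans (le_max_right _ _) hN
  -- the values
  have eth : (prm N de r).th = 1 / (N : ℝ) ^ 60 := rfl
  have ephib : (prm N de r).phib = 101 / 100 * (prm N de r).Phi +
      3 * ((N ^ 80 : ℕ) : ℝ) * (1 / (N : ℝ) ^ 60) * (prm N de r).Phi := rfl
  have eb1 : (prm N de r).b1 = (1 / (N : ℝ) ^ 60) / (1 - 1 / (N : ℝ) ^ 60) * (2 * r + de) +
      101 / 100 * (prm N de r).B4 := rfl
  have ePsi : (prm N de r).Psi = (1 + 2 * (prm N de r).phib) * (1 + 2 * (prm N de r).obar) - 1 :=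
    rfl
  have eobar : (prm N de r).obar = 9 * (1 / (N : ℝ) ^ 60) * (4 / (N : ℝ) ^ 160) := rfl
  have ebeta : (prm N de r).beta = 101 / 100 * (prm N de r).B1 + 202 / 100 * r * (prm N de r).Phi +
      (prm N de r).beta2 + (2 * r + 2 * (prm N de r).b1) *
        (3 * ((N ^ 80 : ℕ) : ℝ) * (1 / (N : ℝ) ^ 60) * (prm N de r).Phi) + (prm N de r).B5 +
      22 / 10 * (prm N de r).phib * ((prm N de r).B6 + 2 * (prm N de r).obar) := rfl
  have elam : (prm N de r).lam = (N : ℝ) ^ 2 := rfl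
  have er : (prm N de r).r = r := rfl
  have hde0 := hreg.de0
  have hPhi0 : 0 ≤ (prm N de r).Phi := by
    have h1 : (prm N de r).Phi = 9 * √((N : ℝ) ^ 2 * (1 / (N : ℝ) ^ 60) *
      (de * (((N ^ 80 : ℕ) : ℝ) + 4 * (4 / (N : ℝ) ^ 165)))) +
        8 * (N : ℝ) ^ 2 * de * ((N ^ 80 : ℕ) : ℝ) := rfl
    rw [h1]
    positivity
  have hB40 : 0 ≤ (prm N de r).B4 := by
    have h1 : (prm N de r).B4 = 9 * √((N : ℝ) ^ 2 * (1 / (N : ℝ) ^ 60) * de) +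
        8 * (N : ℝ) ^ 2 * de := rfl
    rw [h1]
    positivity
  have hcast : ((N ^ 80 : ℕ) : ℝ) = (N : ℝ) ^ 80 := by push_cast; ring
  rw [hcast] at ephib ebeta
  rw [eth, elam, er, ebeta, ePsi]
  obtain ⟨hD0, hD1, -, hde1, hr0, hr1, -, -⟩ := hreg
  have hDpos : 0 < D := lt_of_lt_of_le (npos hn 234) hD0
  obtain ⟨s, hspos, hsq, hs2, hs1, hs4⟩ : ∃ s : ℝ, 0 < s ∧ √D = s ∧ s * s = D ∧
      (N : ℝ) ^ 117 ≤ s ∧ s ≤ 14143 / 10000 * (N : ℝ) ^ 240 := by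
    refine ⟨√D, Real.sqrt_pos.2 hDpos, rfl, Real.mul_self_sqrt hDpos.le, ?_, ?_⟩
    · apply Real.le_sqrt_of_sq_le
      calc ((N : ℝ) ^ 117) ^ 2 = (N : ℝ) ^ 234 := by rw [← pow_mul]
        _ ≤ D := hD0
    · apply Real.sqrt_le_iff.2
      refine ⟨mul_nonneg (by norm_num) (npos hn 240).le, ?_⟩
      calc D ≤ 2 * (N : ℝ) ^ 480 := hD1
        _ ≤ (14143 / 10000 * (N : ℝ) ^ 240) ^ 2 := by
            have : (14143 / 10000 * (N : ℝ) ^ 240) ^ 2 = (14143 / 10000) ^ 2 * (N : ℝ) ^ 480 := by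
              rw [mul_pow, ← pow_mul]
            rw [this]
            have := npos hn 480
            linarith
  rw [hsq] at hB1 hPhi hb2 hB4 hB5 hB6
  have A1 : de * (s * s) ≤ 2 := by rw [hs2]; rwa [le_div_iff₀ hDpos] at hde1
  have A2 : r * (s * s) ≤ 200 * (N : ℝ) ^ 232 := by rw [hs2]; rwa [le_div_iff₀ hDpos] at hr1
  have A3 : (prm N de r).Phi * s ≤ 15 * (N : ℝ) ^ 11 := by rwa [le_div_iff₀ hspos] at hPhi
  have A4 : (prm N de r).B4 * s ≤ 15 / (N : ℝ) ^ 29 := by rwa [le_div_iff₀ hspos] at hB4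
  rw [← hs2] at hD0 ⊢
  have hs1' : 1 ≤ s := le_trans (one_le_pow₀ (by linarith)) hs1
  have ephib' : (prm N de r).phib = (prm N de r).Phi * (101 / 100 + 3 * (N : ℝ) ^ 20) := by
    rw [ephib, mul_assoc 3, e20 hn]; ring
  have hph0 : 0 ≤ (prm N de r).phib := by
    rw [ephib']
    exact mul_nonneg hPhi0 (by have := npos hn 20; linarith)
  have hob0 : 0 ≤ (prm N de r).obar := by rw [eobar]; positivity
  have hob := ob220 hn eobar
  have hphs := phs_le hn A3 ephib'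
  have hph80 := ph80 hn hs1 hph0 hphs
  have hph1 := ph1 hn hph0 hph80
  have hrs := rs_le hn hspos hs1 hr0 A2
  have hdes := des_le hs1' hde0.le A1
  have h232 := Ph232 hn hs1 hPhi0 A3
  have hrsm := rsmall hn hD0 hr0 A2
  have hdesm := desmall hn hD0 hde0.le A1
  have hb1le := b1_le hn hr0 hde0.le eb1
  have hB460 := B4small hn hs1 hB40 A4
  have hb1s := b1s hn hspos hrs hdes hr0 hde0.le A4 hb1le
  refine ⟨by linarith, hph1, b1th hn hrsm hdesm hB460 hb1le, B4th hn hB460,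
    k4b hn hspos hs1 hde0.le A1, psi hn hob0 hph1 hph80 (ob80 hn hob), ?_⟩
  have t1 := T1 hn hspos hs4 A1 hB1
  have t2 := T2 hn hPhi0 A2 h232
  have t3 := T3 hn hspos hs4 A1 hb2
  have t4 := T4 hn hspos hPhi0 A2 A3 h232 hb1s
  have t5 := T5 hn hspos hs4 A1 hB5
  have t6 := T6 hn hspos hs4 hdes hph0 hphs hob hB6
  have t7 := T7 hn hde0.le A1
  have hp := npos hn 171
  clear hB1 hPhi hb2 hB4 hB5 hB6 ephib eb1 ePsi eobar ebeta hob hphs hph80 hph1 hrs hdes h232 hrsm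
    hdesm hb1le hB460 hb1s A1 A2 A3 A4 hD0 hD1 hde1 hr1 ephib' hs1 hs4 hcast hs1' hsq hs2
  simp only [mul_add] at *
  linarith

end Pool.Agent.NIB.H66
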