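import Pool.Agent.Helper82_NIB.Stmts

/-! # NIB: module SCN2, the number of bad events that depend on a coordinate -/

set_option autoImplicit false
set_option linter.unusedSectionVars false

namespace Pool.Agent.NIB.H66

open Finset Matrix

section

variable {V C J : Type} [Fintype V] [DecidableEq V] [Fintype C] [DecidableEq C]

theorem card_le_of_ncard {α : Type} [Fintype α] (p : α → Prop) [DecidablePred p] {k : ℕ}
    (h : ({a | p a} : Set α).ncard ≤ k) : (univ.filter p).card ≤ k := by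
  have e : ({a | p a} : Set α) = ((univ.filter p : Finset α) : Set α) := by
    ext a; simp
  rwa [e, Set.ncard_coe_finset] at h

open Classical in
/-- the arcs with tail `u` that carry weight -/
theorem out_card (b : Bm V C) {de Lam h : ℝ} {kap : ℕ} (hb : b.Ok de Lam h kap) (u : V) :
    (univ.filter fun a : V × V => a.1 = u ∧ ∃ c, b.x c a.1 a.2 ≠ 0).card ≤ kap := by
  have h1 : (univ.filter fun v : V => ∃ c, b.x c u v ≠ 0).card ≤ kap :=
    card_le_of_ncard _ (hb.kout u)
  refine le_trans ?_ h1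
  refine Finset.card_le_card_of_injOn (fun a => a.2) ?_ ?_
  · rintro ⟨u', v⟩ ha
    simp only [coe_filter, mem_univ, true_and, Set.mem_ofPred_eq] at ha ⊢
    obtain ⟨rfl, c, hc⟩ := ha
    exact ⟨c, hc⟩
  · rintro ⟨u1, v1⟩ h1 ⟨u2, v2⟩ h2 h3
    simp only [coe_filter, mem_univ, true_and, Set.mem_ofPred_eq] at h1 h2 h3
    rw [h1.1, h2.1, h3]

open Classical in
/-- the arcs with head `v` that carry weight -/
theorem in_card (b : Bm V C) {de Lam h : ℝ} {kap : ℕ} (hb : b.Ok de Lam h kap) (v : V) :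
    (univ.filter fun a : V × V => a.2 = v ∧ ∃ c, b.x c a.1 a.2 ≠ 0).card ≤ kap := by
  have h1 : (univ.filter fun u : V => ∃ c, b.x c u v ≠ 0).card ≤ kap :=
    card_le_of_ncard _ (hb.kin v)
  refine le_trans ?_ h1
  refine Finset.card_le_card_of_injOn (fun a => a.1) ?_ ?_
  · rintro ⟨u', v⟩ ha
    simp only [coe_filter, mem_univ, true_and, Set.mem_ofPred_eq] at ha ⊢
    obtain ⟨rfl, c, hc⟩ := ha
    exact ⟨c, hc⟩
  · rintro ⟨u1, v1⟩ h1 ⟨u2, v2⟩ h2 h3
    simp only [coe_filter, mem_univ, true_and, Set.mem_ofPred_eq] at h1 h2 h3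
    rw [h1.1, h2.1, h3]

open Classical in
/-- the pairs on whose fate a coordinate has influence -/
theorem pairs_card (b : Bm V C) {de Lam h : ℝ} {kap : ℕ} (hb : b.Ok de Lam h kap)
    (i : Crd V C) :
    (univ.filter fun p : C × (V × V) => b.x p.1 p.2.1 p.2.2 ≠ 0 ∧ i ∈ b.dep p.1 p.2).card ≤
      (Fintype.card C + 2) * (2 * kap + 1) := by
  rcases i with a0 | ⟨c0, s0⟩
  · have hsub : (univ.filter fun p : C × (V × V) => b.x p.1 p.2.1 p.2.2 ≠ 0 ∧
        (Sum.inl a0 : Crd V C) ∈ b.dep p.1 p.2) ⊆ (univ : Finset C) ×ˢ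
        (({a0} ∪ (univ.filter fun a : V × V => a.1 = a0.1 ∧ ∃ c, b.x c a.1 a.2 ≠ 0)) ∪
          (univ.filter fun a : V × V => a.2 = a0.2 ∧ ∃ c, b.x c a.1 a.2 ≠ 0)) := by
      rintro ⟨c, a⟩ hp
      simp only [Bm.dep, Bm.blk, mem_filter, mem_univ, true_and, mem_union, mem_insert,
        Sum.inl.injEq, reduceCtorEq, mem_singleton, or_false, mem_image, exists_eq_right] at hp
      simp only [mem_product, mem_univ, true_and, mem_union, mem_singleton, mem_filter]
      obtain ⟨hx, h1 | ⟨-, h2 | h2, -⟩⟩ := hp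
      · exact Or.inl (Or.inl h1.symm)
      · exact Or.inl (Or.inr ⟨h2.symm, c, hx⟩)
      · exact Or.inr ⟨h2.symm, c, hx⟩
    refine (card_le_card hsub).trans ?_
    rw [card_product, card_univ]
    refine Nat.mul_le_mul (by omega) ?_
    refine (card_union_le _ _).trans ?_
    have h1 := card_union_le {a0} (univ.filter fun a : V × V => a.1 = a0.1 ∧ ∃ c, b.x c a.1 a.2 ≠ 0)
    have h2 := out_card b hb a0.1
    have h3 := in_card b hb a0.2
    rw [card_singleton] at h1
    omega
  · have hsub : (univ.filter fun p : C × (V × V) => b.x p.1 p.2.1 p.2.2 ≠ 0 ∧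
        (Sum.inr (c0, s0) : Crd V C) ∈ b.dep p.1 p.2) ⊆ ({c0} : Finset C) ×ˢ
        ((univ.filter fun a : V × V => b.st c0 a.1 = s0 ∧ b.x c0 a.1 a.2 ≠ 0) ∪
          (univ.filter fun a : V × V => a.2 = s0 ∧ ∃ c, b.x c a.1 a.2 ≠ 0)) := by
      rintro ⟨c, a⟩ hp
      simp only [Bm.dep, Bm.blk, mem_filter, mem_univ, true_and, mem_union, mem_insert,
        Sum.inr.injEq, reduceCtorEq, mem_singleton, mem_image, false_or, Prod.mk.injEq,
        and_false, exists_false, or_false] at hp
      simp only [mem_product, mem_univ, true_and, mem_union, mem_singleton, mem_filter]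
      obtain ⟨hx, ⟨rfl, rfl⟩ | ⟨rfl, rfl⟩⟩ := hp
      · exact ⟨rfl, Or.inl ⟨rfl, hx⟩⟩
      · exact ⟨rfl, Or.inr ⟨rfl, _, hx⟩⟩
    refine (card_le_card hsub).trans ?_
    rw [card_product, card_singleton, one_mul]
    have h3 := in_card b hb s0
    have h4 : (univ.filter fun a : V × V => b.st c0 a.1 = s0 ∧ b.x c0 a.1 a.2 ≠ 0).card ≤ kap := by
      by_cases hne : (univ.filter fun a : V × V => b.st c0 a.1 = s0 ∧ b.x c0 a.1 a.2 ≠ 0).Nonempty
      · obtain ⟨a1, ha1⟩ := hne
        simp only [mem_filter, mem_univ, true_and] at ha1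
        refine le_trans (card_le_card ?_) (out_card b hb a1.1)
        intro a ha
        simp only [mem_filter, mem_univ, true_and] at ha ⊢
        exact ⟨hb.stInj c0 _ _ _ _ ha.2 ha1.2 (ha.1.trans ha1.1.symm), c0, ha.2⟩
      · rw [not_nonempty_iff_eq_empty.1 hne]
        simp
    refine (card_union_le _ _).trans ?_
    have h5 : 2 * kap + 1 ≤ (Fintype.card C + 2) * (2 * kap + 1) :=
      Nat.le_mul_of_pos_left _ (by omega)
    omega

open Classical in
/-- the bad events in which a given pair occurs -/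
theorem events_card [Fintype J] (b : Bm V C) {de Lam h : ℝ} {kap K2 : ℕ}
    (hb : b.Ok de Lam h kap) (kp : C → J → V → V → ℝ)
    (hK : ∀ c (a : V × V), b.x c a.1 a.2 ≠ 0 → ({j | kp c j a.1 a.2 ≠ 0} : Set J).ncard ≤ K2)
    (c : C) (a : V × V) (hx : b.x c a.1 a.2 ≠ 0) :
    (univ.filter fun e : EI V C J => (c, a) ∈ PE b kp e).card ≤ K2 + 2 * kap + 6 := by
  set J1 : Finset J := univ.filter fun j => kp c j a.1 a.2 ≠ 0 with hJ1
  have hJ : J1.card ≤ K2 := card_le_of_ncard _ (hK c a hx)
  set W2 : Finset (V × Bool) := {(a.1, true), (a.2, false)} with hW2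
  have hW2c : W2.card ≤ 2 := card_le_two
  have hrow : ∀ w : V × Bool, (univ.filter fun w' => mat (b.x c) w w' ≠ 0).card ≤ kap := by
    intro w
    refine card_le_of_ncard _ (mat_row_ncard (fun u => ?_) (fun v => ?_) w)
    · have hs : ({v | b.x c u v ≠ 0} : Set V) ⊆ {v | ∃ c, b.x c u v ≠ 0} := fun v hv => ⟨c, hv⟩
      exact (Set.ncard_le_ncard hs (Set.toFinite _)).trans (hb.kout u)
    · have hs : ({u | b.x c u v ≠ 0} : Set V) ⊆ {u | ∃ c, b.x c u v ≠ 0} := fun u hu => ⟨c, hu⟩
      exact (Set.ncard_le_ncard hs (Set.toFinite _)).trans (hb.kin v)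
  set W1 : Finset (V × Bool) := W2 ∪ ((univ.filter fun w' => mat (b.x c) (a.1, true) w' ≠ 0) ∪
    (univ.filter fun w' => mat (b.x c) (a.2, false) w' ≠ 0)) with hW1
  have hW1c : W1.card ≤ 2 + 2 * kap := by
    refine (card_union_le _ _).trans ?_
    have := card_union_le (univ.filter fun w' => mat (b.x c) (a.1, true) w' ≠ 0)
      (univ.filter fun w' => mat (b.x c) (a.2, false) w' ≠ 0)
    have := hrow (a.1, true)
    have := hrow (a.2, false)
    omega
  have hat : ∀ w, atn w a ↔ w ∈ W2 := by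
    intro w
    simp [atn, hW2]
  have hsub : (univ.filter fun e : EI V C J => (c, a) ∈ PE b kp e) ⊆
      (J1.image fun j => (Sum.inl (c, j) : EI V C J)) ∪
      ((W1.image fun w => (Sum.inr (Sum.inl (c, w)) : EI V C J)) ∪
      ((W2.image fun w => (Sum.inr (Sum.inr (Sum.inl (c, w))) : EI V C J)) ∪
      (W2.image fun w => (Sum.inr (Sum.inr (Sum.inr w)) : EI V C J)))) := by
    intro e he
    rw [mem_filter] at he
    replace he := he.2
    rcases e with ⟨c', j⟩ | ⟨c', w⟩ | ⟨c', w⟩ | w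
    · simp only [PE, mem_filter, mem_univ, true_and] at he
      obtain ⟨rfl, -, h2⟩ := he
      refine mem_union_left _ (mem_image.2 ⟨j, ?_, rfl⟩)
      simp [hJ1, h2]
    · simp only [PE, mem_filter, mem_univ, true_and] at he
      obtain ⟨rfl, -, h2⟩ := he
      refine mem_union_right _ (mem_union_left _ (mem_image.2 ⟨w, ?_, rfl⟩))
      rcases h2 with h2 | ⟨w', h3, h4⟩
      · exact mem_union_left _ ((hat w).1 h2)
      · rw [hat w', hW2, mem_insert, mem_singleton] at h4
        refine mem_union_right _ ?_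
        rw [mat_symm] at h3
        rcases h4 with rfl | rfl
        · exact mem_union_left _ (by simp [h3])
        · exact mem_union_right _ (by simp [h3])
    · simp only [PE, mem_filter, mem_univ, true_and] at he
      obtain ⟨rfl, -, h2⟩ := he
      exact mem_union_right _ (mem_union_right _ (mem_union_left _
        (mem_image.2 ⟨w, (hat w).1 h2, rfl⟩)))
    · simp only [PE, mem_filter, mem_univ, true_and] at he
      exact mem_union_right _ (mem_union_right _ (mem_union_right _
        (mem_image.2 ⟨w, (hat w).1 he.2, rfl⟩)))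
  refine (card_le_card hsub).trans ?_
  have h1 : (J1.image fun j => (Sum.inl (c, j) : EI V C J)).card ≤ K2 := card_image_le.trans hJ
  have h2 : (W1.image fun w => (Sum.inr (Sum.inl (c, w)) : EI V C J)).card ≤ 2 + 2 * kap :=
    card_image_le.trans hW1c
  have h3 : (W2.image fun w => (Sum.inr (Sum.inr (Sum.inl (c, w))) : EI V C J)).card ≤ 2 :=
    card_image_le.trans hW2c
  have h4 : (W2.image fun w => (Sum.inr (Sum.inr (Sum.inr w)) : EI V C J)).card ≤ 2 :=
    card_image_le.trans hW2c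
  refine (card_union_le _ _).trans ?_
  refine (Nat.add_le_add h1 ((card_union_le _ _).trans (Nat.add_le_add h2
    ((card_union_le _ _).trans (Nat.add_le_add h3 h4))))).trans ?_
  omega

end

/-- MODULE SCN2 -/
theorem scn2 : Scn2Stmt := by
  intro V C J _ _ _ _ _ b de Lam h kap K2 kp hb hK i
  classical
  set P : Finset (C × (V × V)) := univ.filter fun p => b.x p.1 p.2.1 p.2.2 ≠ 0 ∧ i ∈ b.dep p.1 p.2
    with hP
  set T : C × (V × V) → Finset (EI V C J) := fun p => univ.filter fun e => p ∈ PE b kp e with hT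
  have hx : ∀ (e : EI V C J) (p : C × (V × V)), p ∈ PE b kp e → b.x p.1 p.2.1 p.2.2 ≠ 0 := by
    intro e p hp
    rcases e with ⟨c', j⟩ | ⟨c', w⟩ | ⟨c', w⟩ | w
    · simp only [PE, mem_filter, mem_univ, true_and] at hp
      rw [hp.1]; exact hp.2.1
    · simp only [PE, mem_filter, mem_univ, true_and] at hp
      rw [hp.1]; exact hp.2.1
    · simp only [PE, mem_filter, mem_univ, true_and] at hp
      rw [hp.1]; exact hp.2.1
    · simp only [PE, mem_filter, mem_univ, true_and] at hp
      exact hp.1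
  have hsub : ({e | i ∈ WE b kp e} : Set (EI V C J)) ⊆ ((P.biUnion T : Finset (EI V C J)) : Set _) := by
    intro e he
    have he' : i ∈ WE b kp e := he
    rw [WE, mem_biUnion] at he'
    obtain ⟨p, hp, hi⟩ := he'
    rw [mem_coe, mem_biUnion]
    exact ⟨p, by simp [hP, hx e p hp, hi], by simp [hT, hp]⟩
  refine (Set.ncard_le_ncard hsub (Set.toFinite _)).trans ?_
  rw [Set.ncard_coe_finset]
  have h1 : (P.biUnion T).card ≤ P.card * (K2 + 2 * kap + 6) := by
    refine card_biUnion_le_card_mul _ _ _ fun p hp => ?_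
    rw [hP, mem_filter] at hp
    exact events_card b hb kp hK p.1 p.2 hp.2.1
  have h2 := pairs_card b hb i
  refine h1.trans ((Nat.mul_le_mul_right _ h2).trans ?_)
  unfold KK3
  have h3 : (2 * kap + 1) ≤ (kap + 3) ^ 5 := by
    calc 2 * kap + 1 ≤ (kap + 3) ^ 2 := by nlinarith
      _ ≤ (kap + 3) ^ 5 := Nat.pow_le_pow_right (by omega) (by norm_num)
  have h4 : K2 + 2 * kap + 6 ≤ (kap + 3) * (K2 + 2) := by nlinarith [Nat.zero_le (K2 * kap)]
  calc (Fintype.card C + 2) * (2 * kap + 1) * (K2 + 2 * kap + 6)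
      ≤ (Fintype.card C + 2) * (kap + 3) ^ 5 * ((kap + 3) * (K2 + 2)) :=
        Nat.mul_le_mul (Nat.mul_le_mul_left _ h3) h4
    _ = (Fintype.card C + 2) * (kap + 3) ^ 6 * (K2 + 2) := by ring

end Pool.Agent.NIB.H66
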